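import Mathlib
import Pool.Agent.W2helper59.CW.Stm

set_option autoImplicit false

/-!
# Piece ONE of project CW: the case `de = 0` of the chain integral
-/

namespace Pool.Agent.W2helper73.CW

open Pool.Agent.W2helper59.CW

/-- the Beta integral for natural exponents -/
theorem beta (b a : ℕ) : ∫ x in (0 : ℝ)..1, x ^ a * (1 - x) ^ b =
    (a.factorial : ℝ) * b.factorial / (a + b + 1).factorial := by
  induction b generalizing a with
  | zero =>
    have h : ∫ x in (0 : ℝ)..1, x ^ a * (1 - x) ^ 0 = ∫ x in (0 : ℝ)..1, x ^ a := by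
      congr 1
      ext x
      ring
    rw [h, integral_pow, add_zero, Nat.factorial_zero, Nat.factorial_succ]
    have h1 : (a.factorial : ℝ) ≠ 0 := by positivity
    have h2 : (a : ℝ) + 1 ≠ 0 := by positivity
    push_cast
    field_simp
    simp
  | succ b ih =>
    have hd : ∀ x ∈ Set.uIcc (0 : ℝ) 1, HasDerivAt (fun x : ℝ => x ^ (a + 1) * (1 - x) ^ (b + 1))
        (((a : ℝ) + 1) * (x ^ a * (1 - x) ^ (b + 1)) -
          ((b : ℝ) + 1) * (x ^ (a + 1) * (1 - x) ^ b)) x := by
      intro x _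
      have h1 : HasDerivAt (fun x : ℝ => x ^ (a + 1)) (((a + 1 : ℕ) : ℝ) * x ^ a) x := by
        simpa using hasDerivAt_pow (a + 1) x
      have h2 : HasDerivAt (fun x : ℝ => (1 - x) ^ (b + 1))
          (((b + 1 : ℕ) : ℝ) * (1 - x) ^ b * (-1)) x := by
        have h3 : HasDerivAt (fun x : ℝ => 1 - x) (-1) x := by
          simpa using (hasDerivAt_id x).const_sub 1
        simpa using h3.fun_pow (b + 1)
      refine (h1.fun_mul h2).congr_deriv ?_
      push_cast
      ring
    have hc1 : Continuous (fun x : ℝ => x ^ a * (1 - x) ^ (b + 1)) := by fun_prop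
    have hc2 : Continuous (fun x : ℝ => x ^ (a + 1) * (1 - x) ^ b) := by fun_prop
    have hint : IntervalIntegrable (fun x : ℝ => ((a : ℝ) + 1) * (x ^ a * (1 - x) ^ (b + 1)) -
          ((b : ℝ) + 1) * (x ^ (a + 1) * (1 - x) ^ b)) MeasureTheory.volume 0 1 := by
      apply Continuous.intervalIntegrable
      fun_prop
    have h := intervalIntegral.integral_eq_sub_of_hasDerivAt hd hint
    rw [intervalIntegral.integral_sub
      ((hc1.const_mul ((a : ℝ) + 1)).intervalIntegrable 0 1 : IntervalIntegrable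
        (fun x : ℝ => ((a : ℝ) + 1) * (x ^ a * (1 - x) ^ (b + 1))) MeasureTheory.volume 0 1)
      ((hc2.const_mul ((b : ℝ) + 1)).intervalIntegrable 0 1 : IntervalIntegrable
        (fun x : ℝ => ((b : ℝ) + 1) * (x ^ (a + 1) * (1 - x) ^ b)) MeasureTheory.volume 0 1),
      intervalIntegral.integral_const_mul, intervalIntegral.integral_const_mul, ih (a + 1)] at h
    have h0 : (1 : ℝ) ^ (a + 1) * (1 - 1) ^ (b + 1) - 0 ^ (a + 1) * (1 - 0) ^ (b + 1) = 0 := by
      simp
    rw [h0] at h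
    have e1 : a + 1 + b + 1 = a + (b + 1) + 1 := by ring
    rw [e1] at h
    have h2 : (a : ℝ) + 1 ≠ 0 := by positivity
    have h3 : ((a + (b + 1) + 1).factorial : ℝ) ≠ 0 := by positivity
    rw [Nat.factorial_succ a] at h
    rw [Nat.factorial_succ b]
    push_cast at h ⊢
    rw [sub_eq_zero] at h
    refine mul_left_cancel₀ h2 ?_
    rw [h]
    ring

/-- the first iterate -/
theorem kr_one (al ga : ℕ) (x : ℝ) :
    Kr al 0 ga (fun _ => 1) x = x ^ al * (1 - x) ^ (ga + 1) / (ga + 1) := by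
  unfold Kr
  have hd : ∀ y ∈ Set.uIcc x 1, HasDerivAt
      (fun y : ℝ => -(x ^ al * (1 - y) ^ (ga + 1) / ((ga : ℝ) + 1)))
      (x ^ al * (y - x) ^ 0 * (1 - y) ^ ga * 1) y := by
    intro y _
    have h3 : HasDerivAt (fun x : ℝ => 1 - x) (-1) y := by
      simpa using (hasDerivAt_id y).const_sub 1
    have h2 : HasDerivAt (fun x : ℝ => (1 - x) ^ (ga + 1))
        (((ga + 1 : ℕ) : ℝ) * (1 - y) ^ ga * (-1)) y := by
      simpa using h3.fun_pow (ga + 1)
    have h4 := ((h2.const_mul (x ^ al)).div_const ((ga : ℝ) + 1)).fun_neg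
    refine h4.congr_deriv ?_
    have : (ga : ℝ) + 1 ≠ 0 := by positivity
    push_cast
    field_simp
  have hint : IntervalIntegrable (fun y : ℝ => x ^ al * (y - x) ^ 0 * (1 - y) ^ ga * 1)
      MeasureTheory.volume x 1 := by
    apply Continuous.intervalIntegrable
    fun_prop
  rw [intervalIntegral.integral_eq_sub_of_hasDerivAt hd hint]
  simp

/-- the exact value -/
theorem J_two (al ga : ℕ) : J al 0 ga 2 =
    ((2 * al + 1).factorial : ℝ) * (2 * ga + 1).factorial /
      (((al : ℝ) + 1) * (ga + 1) * (2 * (al + ga) + 3).factorial) := by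
  set q : ℝ → ℝ := fun y => y ^ al * (1 - y) ^ (2 * ga + 1) / ((ga : ℝ) + 1) with hq
  have hqc : Continuous q := by
    rw [hq]; fun_prop
  have hG : ∀ x : ℝ, G al 0 ga 2 x = x ^ al * ∫ y in x..1, q y := by
    intro x
    have h1 : G al 0 ga 2 = Kr al 0 ga (Kr al 0 ga (fun _ => 1)) := rfl
    rw [h1]
    have h2 : Kr al 0 ga (fun _ => 1) = fun x : ℝ => x ^ al * (1 - x) ^ (ga + 1) / (ga + 1) := by
      funext z
      exact kr_one al ga z
    rw [h2]
    unfold Kr
    rw [← intervalIntegral.integral_const_mul]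
    congr 1
    ext y
    rw [hq]
    simp only
    have h3 : (1 - y) ^ (2 * ga + 1) = (1 - y) ^ ga * (1 - y) ^ (ga + 1) := by
      rw [← pow_add]; congr 1; ring
    rw [h3]
    ring
  have hQ : ∀ x : ℝ, HasDerivAt (fun x : ℝ => ∫ y in x..1, q y) (-q x) x := by
    intro x
    have h1 : (fun x : ℝ => ∫ y in x..1, q y) = fun x : ℝ => -∫ y in (1 : ℝ)..x, q y := by
      funext z
      rw [intervalIntegral.integral_symm]
    rw [h1]
    exact ((hqc.integral_hasStrictDerivAt 1 x).hasDerivAt).neg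
  have hQc : Continuous (fun x : ℝ => ∫ y in x..1, q y) :=
    continuous_iff_continuousAt.2 fun x => (hQ x).continuousAt
  have hd : ∀ x ∈ Set.uIcc (0 : ℝ) 1, HasDerivAt
      (fun x : ℝ => x ^ (al + 1) / ((al : ℝ) + 1) * ∫ y in x..1, q y)
      (x ^ al * (∫ y in x..1, q y) - x ^ (al + 1) / ((al : ℝ) + 1) * q x) x := by
    intro x _
    have h1 : HasDerivAt (fun x : ℝ => x ^ (al + 1) / ((al : ℝ) + 1)) (x ^ al) x := by
      have h2 : HasDerivAt (fun x : ℝ => x ^ (al + 1)) (((al + 1 : ℕ) : ℝ) * x ^ al) x := by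
        simpa using hasDerivAt_pow (al + 1) x
      refine (h2.div_const ((al : ℝ) + 1)).congr_deriv ?_
      have : (al : ℝ) + 1 ≠ 0 := by positivity
      push_cast
      field_simp
    refine (h1.fun_mul (hQ x)).congr_deriv ?_
    ring
  have hc1 : Continuous (fun x : ℝ => x ^ al * ∫ y in x..1, q y) := by
    exact (continuous_pow al).mul hQc
  have hc2 : Continuous (fun x : ℝ => x ^ (al + 1) / ((al : ℝ) + 1) * q x) := by
    exact ((continuous_pow (al + 1)).div_const _).mul hqc
  have h := intervalIntegral.integral_eq_sub_of_hasDerivAt hd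
    ((hc1.sub hc2).intervalIntegrable 0 1)
  rw [intervalIntegral.integral_sub (hc1.intervalIntegrable 0 1) (hc2.intervalIntegrable 0 1)] at h
  have h0 : (1 : ℝ) ^ (al + 1) / ((al : ℝ) + 1) * (∫ y in (1 : ℝ)..1, q y) -
      (0 : ℝ) ^ (al + 1) / ((al : ℝ) + 1) * (∫ y in (0 : ℝ)..1, q y) = 0 := by
    simp
  rw [h0] at h
  have hJ : J al 0 ga 2 = ∫ x in (0 : ℝ)..1, x ^ al * ∫ y in x..1, q y := by
    unfold J
    congr 1
    ext x
    exact hG x
  have h5 : ∫ x in (0 : ℝ)..1, x ^ (al + 1) / ((al : ℝ) + 1) * q x =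
      1 / (((al : ℝ) + 1) * (ga + 1)) *
        ∫ x in (0 : ℝ)..1, x ^ (2 * al + 1) * (1 - x) ^ (2 * ga + 1) := by
    rw [← intervalIntegral.integral_const_mul]
    congr 1
    ext x
    rw [hq]
    simp only
    have h3 : x ^ (2 * al + 1) = x ^ (al + 1) * x ^ al := by
      rw [← pow_add]; congr 1; ring
    rw [h3]
    have h6 : (al : ℝ) + 1 ≠ 0 := by positivity
    have h7 : (ga : ℝ) + 1 ≠ 0 := by positivity
    field_simp
  rw [hJ]
  have h8 : ∫ x in (0 : ℝ)..1, x ^ al * ∫ y in x..1, q y =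
      ∫ x in (0 : ℝ)..1, x ^ (al + 1) / ((al : ℝ) + 1) * q x := by linarith
  rw [h8, h5, beta]
  have e : 2 * al + 1 + (2 * ga + 1) + 1 = 2 * (al + ga) + 3 := by ring
  rw [e]
  have h6 : (al : ℝ) + 1 ≠ 0 := by positivity
  have h7 : (ga : ℝ) + 1 ≠ 0 := by positivity
  have h9 : ((2 * (al + ga) + 3).factorial : ℝ) ≠ 0 := by positivity
  field_simp

/-- the central binomial type coefficient -/
noncomputable def g (a : ℕ) : ℝ := ((2 * a + 1).factorial : ℝ) / (((a : ℝ) + 1) * a.factorial ^ 2)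

theorem g_pos (a : ℕ) : 0 < g a := by
  unfold g; positivity

theorem g_succ (a : ℕ) : g (a + 1) = g a * (2 * (2 * a + 3) / (a + 2)) := by
  unfold g
  have e : 2 * (a + 1) + 1 = (2 * a + 1) + 1 + 1 := by ring
  rw [e, Nat.factorial_succ (2 * a + 1 + 1), Nat.factorial_succ (2 * a + 1), Nat.factorial_succ a]
  push_cast
  have h1 : (a : ℝ) + 1 ≠ 0 := by positivity
  have h2 : (a : ℝ) + 2 ≠ 0 := by positivity
  have h3 : (a.factorial : ℝ) ≠ 0 := by positivity
  have h4 : (a : ℝ) + 1 + 1 ≠ 0 := by positivity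
  field_simp
  ring

/-- strict log-convexity -/
theorem g_step (a b : ℕ) (hab : a < b) : g (a + 1) * g b < g a * g (b + 1) := by
  rw [g_succ, g_succ]
  have ha := g_pos a
  have hb := g_pos b
  have hab' : (a : ℝ) < b := by exact_mod_cast hab
  have h : (2 * (2 * (a : ℝ) + 3) / (a + 2)) < (2 * (2 * (b : ℝ) + 3) / (b + 2)) := by
    rw [div_lt_div_iff₀ (by positivity) (by positivity)]
    nlinarith
  calc g a * (2 * (2 * (a : ℝ) + 3) / (a + 2)) * g b
      = g a * g b * (2 * (2 * (a : ℝ) + 3) / (a + 2)) := by ring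
    _ < g a * g b * (2 * (2 * (b : ℝ) + 3) / (b + 2)) :=
        mul_lt_mul_of_pos_left h (mul_pos ha hb)
    _ = g a * (g b * (2 * (2 * (b : ℝ) + 3) / (b + 2))) := by ring

theorem g_mono (n : ℕ) : ∀ a b : ℕ, a + (n + 1) ≤ b →
    g (a + (n + 1)) * g b < g a * g (b + (n + 1)) := by
  induction n with
  | zero =>
    intro a b hab
    exact g_step a b (by omega)
  | succ n ih =>
    intro a b hab
    have h1 := ih (a + 1) b (by omega)
    have h2 := g_step a (b + (n + 1)) (by omega)
    have e1 : a + 1 + (n + 1) = a + (n + 1 + 1) := by ring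
    have e2 : b + (n + 1) + 1 = b + (n + 1 + 1) := by ring
    rw [e1] at h1
    rw [e2] at h2
    exact h1.trans h2

theorem J_div (al ga : ℕ) : J al 0 ga 2 / ((al.factorial : ℝ) * ga.factorial) ^ 2 =
    g al * g ga / (2 * (al + ga) + 3).factorial := by
  rw [J_two]
  unfold g
  have h1 : (al.factorial : ℝ) ≠ 0 := by positivity
  have h2 : (ga.factorial : ℝ) ≠ 0 := by positivity
  have h6 : (al : ℝ) + 1 ≠ 0 := by positivity
  have h7 : (ga : ℝ) + 1 ≠ 0 := by positivity
  have h9 : ((2 * (al + ga) + 3).factorial : ℝ) ≠ 0 := by positivity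
  field_simp

theorem p_one : P_ONE := by
  intro al ga al' ga' hsum h1 h2 hJ
  rw [J_div, J_div, hsum] at hJ
  have h9 : ((2 * (al' + ga') + 3).factorial : ℝ) ≠ 0 := by positivity
  have hg : g al * g ga = g al' * g ga' := by
    field_simp at hJ
    exact hJ
  rcases lt_trichotomy al al' with h | h | h
  · exfalso
    obtain ⟨n, hn⟩ := Nat.exists_eq_add_of_lt h
    have h3 := g_mono n al ga' (by omega)
    have e1 : al + (n + 1) = al' := by omega
    have e2 : ga' + (n + 1) = ga := by omega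
    rw [e1, e2, hg] at h3
    exact lt_irrefl _ h3
  · exact h
  · exfalso
    obtain ⟨n, hn⟩ := Nat.exists_eq_add_of_lt h
    have h3 := g_mono n al' ga (by omega)
    have e1 : al' + (n + 1) = al := by omega
    have e2 : ga + (n + 1) = ga' := by omega
    rw [e1, e2, hg] at h3
    exact lt_irrefl _ h3

end Pool.Agent.W2helper73.CW
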